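import Mathlib

/-!
Selective high divergence does not descend from the Pixley-Roy hyperspace.

Let `I` be an uncountable index set and `X` the space of all `f : I → Bool` with countable support,
as a subspace of the product `Bool^I`. Every sequence in `X` has a convergent subsequence, so `X` is
far from being selectively highly divergent. Its Pixley-Roy hyperspace is selectively highly
divergent: given basic sets `[Fₙ, Vₙ]`, choose indices `α, β₀, β₁, ...`, pairwise distinct, outside
the countably many coordinates which are relevant for the `Fₙ` and `Vₙ`, and put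
`Hₙ = Fₙ ∪ {x + 1_α + 1_{βₙ} : x ∈ Fₙ}`. Let `K` be the limit of a subsequence. If all members of `K`
vanish at `α`, then `{y : y α = 0}` is an open set which contains `K` and no `Hₙ`; and a member `q`
of `K` with `q α = 1` would be a member of almost all `Hₙ` of the subsequence, so that
`q = x + 1_α + 1_{βₙ}` for two different `n`, which is impossible.
-/

namespace Pool.Agent.Results.MP_f85c9e_gt.SigmaProductDescent

open Set Filter Topology

universe u

/-- `X` is selectively highly divergent: for every sequence of non-empty open sets one can choose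
points in these sets so that the sequence of points has no convergent subsequences. -/
def SHD (X : Type u) [TopologicalSpace X] : Prop :=
  ∀ U : ℕ → Set X, (∀ n, IsOpen (U n)) → (∀ n, (U n).Nonempty) →
    ∃ x : ℕ → X, (∀ n, x n ∈ U n) ∧
      ∀ φ : ℕ → ℕ, StrictMono φ → ∀ a : X, ¬ Tendsto (fun k => x (φ k)) atTop (𝓝 a)

/-- The set of non-empty finite subsets of `X`. -/
def PixleyRoy (X : Type u) : Type u := {F : Finset X // F.Nonempty}

/-- The set `[F, V] = {H : F ⊆ H ⊆ V}`. -/
def box {X : Type u} (F : PixleyRoy X) (V : Set X) : Set (PixleyRoy X) :=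
  {H | F.1 ⊆ H.1 ∧ (H.1 : Set X) ⊆ V}

/-- The Pixley-Roy topology: a set is open if and only if together with each of its members `F` it
contains `[F, V]` for some open `V ⊇ F`. -/
instance pixleyRoyTopology (X : Type u) [TopologicalSpace X] : TopologicalSpace (PixleyRoy X) where
  IsOpen W := ∀ F ∈ W, ∃ V : Set X, IsOpen V ∧ (F.1 : Set X) ⊆ V ∧ box F V ⊆ W
  isOpen_univ := fun _ _ => ⟨univ, isOpen_univ, subset_univ _, subset_univ _⟩
  isOpen_inter := by
    intro W W' h h' F hF
    obtain ⟨V, h1, h2, h3⟩ := h F hF.1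
    obtain ⟨V', h1', h2', h3'⟩ := h' F hF.2
    exact ⟨V ∩ V', h1.inter h1', subset_inter h2 h2', fun H hH =>
      ⟨h3 ⟨hH.1, hH.2.trans inter_subset_left⟩, h3' ⟨hH.1, hH.2.trans inter_subset_right⟩⟩⟩
  isOpen_sUnion := by
    intro 𝒲 h F hF
    obtain ⟨W, hW, hFW⟩ := hF
    obtain ⟨V, h1, h2, h3⟩ := h W hW F hFW
    exact ⟨V, h1, h2, fun H hH => ⟨W, hW, h3 hH⟩⟩

theorem isOpen_box {X : Type u} [TopologicalSpace X] (F : PixleyRoy X) {V : Set X}
    (hV : IsOpen V) : IsOpen (box F V) :=
  fun _ hH => ⟨V, hV, hH.2, fun _ hK => ⟨hH.1.trans hK.1, hK.2⟩⟩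

/-- The sets `[F, V]` with `V` open and `F ⊆ V` form a local base at `F`. -/
theorem nhds_hasBasis {X : Type u} [TopologicalSpace X] (F : PixleyRoy X) :
    (𝓝 F).HasBasis (fun V : Set X => IsOpen V ∧ (F.1 : Set X) ⊆ V) (box F) := by
  refine ⟨fun W => ⟨fun hW => ?_, ?_⟩⟩
  · obtain ⟨W', h1, h2, h3⟩ := mem_nhds_iff.1 hW
    obtain ⟨V, hV, hFV, hb⟩ := h2 F h3
    exact ⟨V, ⟨hV, hFV⟩, hb.trans h1⟩
  · rintro ⟨V, ⟨hV, hFV⟩, hb⟩
    exact mem_of_superset ((isOpen_box F hV).mem_nhds ⟨subset_rfl, hFV⟩) hb

/-- The `Σ`-product of copies of the two point space: the functions `I → Bool` with countable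
support, as a subspace of the product. -/
def SigmaProd (I : Type u) : Type u := {f : I → Bool // {i | f i = true}.Countable}

instance (I : Type u) : TopologicalSpace (SigmaProd I) :=
  inferInstanceAs (TopologicalSpace {f : I → Bool // {i | f i = true}.Countable})

instance (I : Type u) : T35Space (SigmaProd I) :=
  inferInstanceAs (T35Space {f : I → Bool // {i | f i = true}.Countable})

/-- Every sequence in the `Σ`-product has a convergent subsequence. -/
theorem seq_compact (I : Type u) (x : ℕ → SigmaProd I) :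
    ∃ (φ : ℕ → ℕ) (a : SigmaProd I), StrictMono φ ∧ Tendsto (fun k => x (φ k)) atTop (𝓝 a) := by
  classical
  set S : Set I := ⋃ n, {i | (x n).1 i = true} with hS
  have hSc : S.Countable := countable_iUnion fun n => (x n).2
  have : Countable S := hSc.to_subtype
  obtain ⟨a, -, φ, hφ, ha⟩ := (isCompact_univ (X := S → Bool)).isSeqCompact
    (x := fun n => fun i : S => (x n).1 i.1) (fun n => mem_univ _)
  have hout : ∀ n i, i ∉ S → (x n).1 i = false := by
    intro n i hi
    by_contra h
    exact hi (mem_iUnion.2 ⟨n, by simpa using h⟩)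
  let b : SigmaProd I := ⟨fun i => if h : i ∈ S then a ⟨i, h⟩ else false, by
    refine hSc.mono ?_
    intro i hi
    by_contra h
    simp [h] at hi⟩
  refine ⟨φ, b, hφ, ?_⟩
  refine tendsto_subtype_rng.2 ?_
  refine tendsto_pi_nhds.2 fun i => ?_
  by_cases h : i ∈ S
  · have h1 := (tendsto_pi_nhds.1 ha) ⟨i, h⟩
    have h2 : b.1 i = a ⟨i, h⟩ := by simp [b, h]
    rw [h2]
    exact h1
  · have h2 : b.1 i = false := by simp [b, h]
    rw [h2]
    have h3 : (fun k => (x (φ k)).1 i) = fun _ => false := funext fun k => hout _ _ h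
    rw [h3]
    exact tendsto_const_nhds

instance (I : Type u) : SeqCompactSpace (SigmaProd I) where
  isSeqCompact_univ := by
    intro x _
    obtain ⟨φ, a, hφ, ha⟩ := seq_compact I x
    exact ⟨a, mem_univ _, φ, hφ, ha⟩

/-- Basic neighbourhoods in the `Σ`-product. -/
theorem exists_finset {I : Type u} (V : Set (SigmaProd I)) (hV : IsOpen V) (x : SigmaProd I)
    (hx : x ∈ V) : ∃ A : Finset I, ∀ y : SigmaProd I, (∀ i ∈ A, y.1 i = x.1 i) → y ∈ V := by
  obtain ⟨W, hW, rfl⟩ := isOpen_induced_iff.1 hV
  obtain ⟨A, u, h1, h2⟩ := isOpen_pi_iff.1 hW x.1 hx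
  refine ⟨A, fun y hy => h2 ?_⟩
  intro i hi
  rw [hy i hi]
  exact (h1 i hi).2

/-- A sequence of non-empty open sets of the hyperspace of the `Σ`-product has a selection without
convergent subsequences. -/
theorem shd_hyper (I : Type u) [Uncountable I] : SHD (PixleyRoy (SigmaProd I)) := by
  classical
  intro U hU hne
  choose F hF using hne
  have hV : ∀ n, ∃ V : Set (SigmaProd I), IsOpen V ∧ ((F n).1 : Set (SigmaProd I)) ⊆ V ∧
      box (F n) V ⊆ U n := fun n => hU n (F n) (hF n)
  choose V hVo hFV hbox using hV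
  have hA : ∀ n, ∀ x : {x // x ∈ (F n).1}, ∃ A : Finset I,
      ∀ y : SigmaProd I, (∀ i ∈ A, y.1 i = x.1.1 i) → y ∈ V n :=
    fun n x => exists_finset (V n) (hVo n) x.1 (hFV n x.2)
  choose A hA using hA
  -- the relevant coordinates
  set B : Set I := (⋃ n, ⋃ x : {x // x ∈ (F n).1}, (A n x : Set I)) ∪
    (⋃ n, ⋃ x : {x // x ∈ (F n).1}, {i | x.1.1 i = true}) with hB
  have hBc : B.Countable := by
    refine Set.Countable.union ?_ ?_
    · exact countable_iUnion fun n => countable_iUnion fun x => (A n x).countable_toSet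
    · exact countable_iUnion fun n => countable_iUnion fun x => x.1.2
  have hBinf : Bᶜ.Infinite := by
    intro hfin
    have h1 : (univ : Set I).Countable := by
      rw [← union_compl_self B]
      exact hBc.union hfin.countable
    exact not_countable_univ h1
  let e : ℕ ↪ (Bᶜ : Set I) := hBinf.natEmbedding _
  let α : I := (e 0).1
  let β : ℕ → I := fun n => (e (n + 1)).1
  have hαB : α ∉ B := (e 0).2
  have hβB : ∀ n, β n ∉ B := fun n => (e (n + 1)).2
  have hαβ : ∀ n, β n ≠ α := by
    intro n h
    have := e.injective (Subtype.ext h : e (n + 1) = e 0)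
    omega
  have hββ : ∀ m n, m ≠ n → β m ≠ β n := by
    intro m n hmn h
    have := e.injective (Subtype.ext h : e (m + 1) = e (n + 1))
    omega
  have hFB : ∀ n, ∀ x ∈ (F n).1, ∀ i, i ∉ B → x.1 i = false := by
    intro n x hx i hi
    by_contra h
    refine hi (Or.inr ?_)
    exact mem_iUnion.2 ⟨n, mem_iUnion.2 ⟨⟨x, hx⟩, by simpa using h⟩⟩
  have hAB : ∀ n (x : {x // x ∈ (F n).1}), ∀ i ∈ A n x, i ∈ B := by
    intro n x i hi
    exact Or.inl (mem_iUnion.2 ⟨n, mem_iUnion.2 ⟨x, hi⟩⟩)
  -- the flips
  let g : ℕ → SigmaProd I → SigmaProd I := fun n x =>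
    ⟨fun i => if i = α ∨ i = β n then true else x.1 i, by
      refine (x.2.union (Set.toFinite {α, β n}).countable).mono ?_
      intro i hi
      by_cases h : i = α ∨ i = β n
      · exact Or.inr h
      · left
        have : (if i = α ∨ i = β n then true else x.1 i) = true := hi
        rw [if_neg h] at this
        exact this⟩
  have hgα : ∀ n x, (g n x).1 α = true := fun n x => by simp [g]
  have hgβ : ∀ n x, (g n x).1 (β n) = true := fun n x => by simp [g]
  have hgo : ∀ n x i, i ≠ α → i ≠ β n → (g n x).1 i = x.1 i := fun n x i h1 h2 => by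
    simp [g, h1, h2]
  let H : ℕ → PixleyRoy (SigmaProd I) := fun n =>
    ⟨(F n).1 ∪ (F n).1.image (g n), (F n).2.mono Finset.subset_union_left⟩
  refine ⟨H, fun n => hbox n ⟨Finset.subset_union_left, ?_⟩, ?_⟩
  · intro y hy
    rcases Finset.mem_union.1 (Finset.mem_coe.1 hy) with hy | hy
    · exact hFV n hy
    · obtain ⟨x, hx, rfl⟩ := Finset.mem_image.1 hy
      refine hA n ⟨x, hx⟩ _ fun i hi => ?_
      have hiB := hAB n ⟨x, hx⟩ i hi
      exact hgo n x i (fun h => hαB (h ▸ hiB)) (fun h => hβB n (h ▸ hiB))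
  · intro φ hφ K hK
    by_cases hq : ∃ q ∈ K.1, q.1 α = true
    · obtain ⟨q, hqK, hqα⟩ := hq
      have h1 : ∀ᶠ k in atTop, H (φ k) ∈ box K univ :=
        hK ((nhds_hasBasis K).mem_of_mem ⟨isOpen_univ, subset_univ _⟩)
      obtain ⟨k, hk⟩ := eventually_atTop.1 h1
      have h2 : ∀ m, k ≤ m → ∃ x ∈ (F (φ m)).1, g (φ m) x = q := by
        intro m hm
        rcases Finset.mem_union.1 ((hk m hm).1 hqK) with h | h
        · have := hFB (φ m) q h α hαB
          rw [this] at hqα
          exact absurd hqα (by simp)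
        · exact Finset.mem_image.1 h
      obtain ⟨x, hx, hxq⟩ := h2 k le_rfl
      obtain ⟨y, hy, hyq⟩ := h2 (k + 1) (Nat.le_succ k)
      have h3 : q.1 (β (φ (k + 1))) = true := by rw [← hyq]; exact hgβ _ _
      have h4 : q.1 (β (φ (k + 1))) = false := by
        have h5 : β (φ (k + 1)) ≠ β (φ k) := hββ _ _ (hφ (Nat.lt_succ_self k)).ne'
        rw [← hxq, hgo (φ k) x (β (φ (k + 1))) (hαβ _) h5]
        exact hFB _ x hx _ (hβB _)
      rw [h3] at h4
      exact absurd h4 (by simp)
    · push Not at hq
      let W : Set (SigmaProd I) := {y | y.1 α = false}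
      have hW : IsOpen W := by
        have hc : Continuous (fun y : SigmaProd I => y.1 α) :=
          (continuous_apply α).comp continuous_subtype_val
        exact (isOpen_discrete ({false} : Set Bool)).preimage hc
      have hKW : (K.1 : Set (SigmaProd I)) ⊆ W := by
        intro y hy
        have h1 := hq y hy
        change y.1 α = false
        simpa using h1
      have h1 : ∀ᶠ k in atTop, H (φ k) ∈ box K W :=
        hK ((nhds_hasBasis K).mem_of_mem ⟨hW, hKW⟩)
      obtain ⟨k, hk⟩ := h1.exists
      obtain ⟨x, hx⟩ := (F (φ k)).2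
      have h2 : g (φ k) x ∈ W := hk.2 (Finset.mem_coe.2 (Finset.mem_union_right _
        (Finset.mem_image_of_mem _ hx)))
      have h3 : (g (φ k) x).1 α = false := h2
      rw [hgα (φ k) x] at h3
      exact absurd h3 (by simp)

/-- There is a completely regular Hausdorff space in which every sequence has a convergent
subsequence (so that it is not selectively highly divergent) and whose Pixley-Roy hyperspace is
selectively highly divergent. -/
theorem result : ∃ (X : Type) (_ : TopologicalSpace X), T35Space X ∧ SeqCompactSpace X ∧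
    SHD (PixleyRoy X) ∧ ¬ SHD X := by
  refine ⟨SigmaProd ℝ, inferInstance, inferInstance, inferInstance, shd_hyper ℝ, ?_⟩
  intro h
  obtain ⟨x, -, hx⟩ := h (fun _ => univ) (fun _ => isOpen_univ)
    (fun _ => ⟨⟨fun _ => false, by simp⟩, mem_univ _⟩)
  obtain ⟨φ, a, hφ, ha⟩ := seq_compact ℝ x
  exact hx φ hφ a ha

end Pool.Agent.Results.MP_f85c9e_gt.SigmaProductDescent
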